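import Pool.Agent.D0H67.CX.Stm3
import Pool.Agent.D0H87.CX.Scale

/-! # CX: SCALE2 (after helper87's module Scale) -/

set_option autoImplicit false
set_option linter.unusedSectionVars false
set_option linter.unusedVariables false

namespace Pool.Agent.D0H35.CX

open MvPolynomial Pool.Agent.W428.MOT Pool.Agent.TH192.MT Pool.Agent.D0H67.SUB
open Pool.Agent.D0H67.CX

namespace Scale2

/-- multiplication by constants -/
noncomputable def mc {κ : Type} (a : κ → ℂ) (z : Pt ℂ κ) : Pt ℂ κ :=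
  fun i => algebraMap ℂ (AlgebraicClosure ℂ) (a i) * z i

theorem pf_mc {κ : Type} (a : κ → ℂ) (i : κ) : IsPF fun z : Pt ℂ κ => mc a z i :=
  (IsPF.const (ι := κ) (a i)).mul (IsPF.coord (K := ℂ) i)

theorem cls_eq {κ : Type} [Fintype κ] {a : κ → ℂ} (ha : ∀ i, a i ≠ 0) (S T : Set (Pt ℂ κ))
    (h : ∀ z, z ∈ S ↔ mc a z ∈ T) :
    algebraMap (K0 ℂ) (MK ℂ) (cls κ S) = algebraMap (K0 ℂ) (MK ℂ) (cls κ T) := by
  obtain ⟨M, -, hM⟩ := exists_meas ℂ
  have h1 : ∀ z : Pt ℂ κ, mc (fun i => (a i)⁻¹) (mc a z) = z := fun z => by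
    funext i
    unfold mc
    rw [← mul_assoc, ← map_mul, inv_mul_cancel₀ (ha i), map_one, one_mul]
  have h2 : ∀ z : Pt ℂ κ, mc a (mc (fun i => (a i)⁻¹) z) = z := fun z => by
    funext i
    unfold mc
    rw [← mul_assoc, ← map_mul, mul_inv_cancel₀ (ha i), map_one, one_mul]
  have hS : Constr T → Constr S := fun hT => by
    have := hT.preimage (fun z : Pt ℂ κ => mc a z) (pf_mc a)
    rwa [← (Set.ext h : S = {z | mc a z ∈ T})] at this
  have hT : Constr S → Constr T := fun hS => by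
    have := hS.preimage (fun z : Pt ℂ κ => mc (fun i => (a i)⁻¹) z) (pf_mc _)
    have h3 : T = {z : Pt ℂ κ | mc (fun i => (a i)⁻¹) z ∈ S} := by
      ext z
      rw [Set.mem_ofPred_eq, h, h2]
    rwa [← h3] at this
  by_cases hc : Constr S
  · rw [← hM, ← hM]
    refine M.iso S T hc (hT hc) (fun z => mc a z)
      (fun z => mc (fun i => (a i)⁻¹) z) (regularOn_poly (pf_mc a) _)
      (regularOn_poly (pf_mc _) _) ?_ ?_ ?_ ?_
    · intro z hz
      exact (h z).1 hz
    · intro z hz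
      change _ ∈ S
      rw [h, h2]
      exact hz
    · intro z _
      exact h1 z
    · intro z _
      exact h2 z
  · rw [Pool.Agent.D0H87.CX.Scale.cls_zero hc, Pool.Agent.D0H87.CX.Scale.cls_zero fun hc' => hc (hS hc')]

/-- weighted homogeneous polynomials -/
theorem aeval_whom {K A σ : Type} [Field K] [CommRing A] [Algebra K A] (w : σ → ℕ) (c : A)
    (γ : σ → A) {f : MvPolynomial σ K} {d : ℕ} (hf : f.IsWeightedHomogeneous w d) :
    aeval (fun i => c ^ w i * γ i) f = c ^ d * aeval γ f := by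
  rw [aeval_def, aeval_def, eval₂_eq, eval₂_eq, Finset.mul_sum]
  refine Finset.sum_congr rfl fun m hm => ?_
  have h3 : ∑ i ∈ m.support, w i * m i = d := by
    have := hf (mem_support_iff.1 hm)
    rw [← this, Finsupp.weight_apply, Finsupp.sum]
    exact Finset.sum_congr rfl fun i _ => by rw [smul_eq_mul, mul_comm]
  have h4 : ∏ i ∈ m.support, (c ^ w i * γ i) ^ m i = c ^ d * ∏ i ∈ m.support, γ i ^ m i := by
    rw [← h3, ← Finset.prod_pow_eq_pow_sum, ← Finset.prod_mul_distrib]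
    exact Finset.prod_congr rfl fun i _ => by rw [mul_pow, pow_mul]
  rw [h4]
  ring

variable {σ : Type}

theorem ar_mc {N : ℕ} (w : σ → ℕ) (a : ℂ) (z : Pt ℂ (σ × Fin (N + 1))) (i : σ) :
    ar (mc (fun q : σ × Fin (N + 1) => a ^ w q.1) z) i =
      PowerSeries.C (algebraMap ℂ (AlgebraicClosure ℂ) a) ^ w i * ar z i := by
  ext k
  rw [← map_pow, PowerSeries.coeff_C_mul, coeff_ar, coeff_ar]
  split_ifs
  · unfold mc
    rw [map_pow]
  · rw [mul_zero]

theorem coeff_mc {N : ℕ} (w : σ → ℕ) (a : ℂ) (z : Pt ℂ (σ × Fin (N + 1)))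
    {f : MvPolynomial σ ℂ} {d : ℕ} (hf : f.IsWeightedHomogeneous w d) (k : ℕ) :
    PowerSeries.coeff k (aeval (ar (mc (fun q : σ × Fin (N + 1) => a ^ w q.1) z)) f) =
      algebraMap ℂ (AlgebraicClosure ℂ) a ^ d * PowerSeries.coeff k (aeval (ar z) f) := by
  have h1 : aeval (ar (mc (fun q : σ × Fin (N + 1) => a ^ w q.1) z)) f =
      PowerSeries.C (algebraMap ℂ (AlgebraicClosure ℂ) a ^ d) * aeval (ar z) f := by
    have h2 : (fun i => ar (mc (fun q : σ × Fin (N + 1) => a ^ w q.1) z) i) =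
        fun i => PowerSeries.C (algebraMap ℂ (AlgebraicClosure ℂ) a) ^ w i * ar z i :=
      funext fun i => ar_mc w a z i
    change aeval (fun i => ar (mc (fun q : σ × Fin (N + 1) => a ^ w q.1) z) i) f = _
    rw [h2, aeval_whom w _ _ hf, map_pow]
  rw [h1, PowerSeries.coeff_C_mul]

theorem jetE {J : Type} {g : J → MvPolynomial σ ℂ} {w : σ → ℕ} {d : ℕ}
    (hg : ∀ j, (g j).IsWeightedHomogeneous w d) {a : ℂ} (ha : a ≠ 0) (p : Pt ℂ σ)
    (y : J → AlgebraicClosure ℂ) (N : ℕ) (z : Pt ℂ (σ × Fin (N + 1))) :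
    z ∈ JetE g p y N ↔ mc (fun q : σ × Fin (N + 1) => a ^ w q.1) z ∈
      JetE g (mc (fun i => a ^ w i) p) y N := by
  have hα : algebraMap ℂ (AlgebraicClosure ℂ) a ≠ 0 := by
    rw [Ne, map_eq_zero]
    exact ha
  have hd : algebraMap ℂ (AlgebraicClosure ℂ) a ^ d ≠ 0 := pow_ne_zero _ hα
  refine and_congr ?_ (and_congr ?_ ?_)
  · refine forall_congr' fun i => ?_
    have h1 : algebraMap ℂ (AlgebraicClosure ℂ) (a ^ w i) ≠ 0 := by
      rw [map_pow]
      exact pow_ne_zero _ hα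
    change _ ↔ algebraMap ℂ (AlgebraicClosure ℂ) (a ^ w i) * z (i, 0) =
      algebraMap ℂ (AlgebraicClosure ℂ) (a ^ w i) * p i
    exact (mul_right_inj' h1).symm
  · refine forall_congr' fun j => forall₂_congr fun k _ => ?_
    rw [coeff_mc w a z (hg j) k, mul_eq_zero, or_iff_right hd]
  · constructor
    · rintro ⟨c, hc, h⟩
      refine ⟨algebraMap ℂ (AlgebraicClosure ℂ) a ^ d * c, mul_ne_zero hd hc, fun j => ?_⟩
      rw [coeff_mc w a z (hg j), h j, mul_assoc]
    · rintro ⟨c, hc, h⟩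
      refine ⟨(algebraMap ℂ (AlgebraicClosure ℂ) a ^ d)⁻¹ * c,
        mul_ne_zero (inv_ne_zero hd) hc, fun j => ?_⟩
      have := h j
      rw [coeff_mc w a z (hg j)] at this
      rw [mul_assoc, ← this, inv_mul_cancel_left₀ hd]

end Scale2

open Scale2 in
/-- **SCALE2.** -/
theorem t_SCALE2 : S_SCALE2 := by
  intro σ J _ _ g w d hg a ha p y b hb
  obtain ⟨h1, h2, h3, h4⟩ := hb
  have hp : (fun i => algebraMap ℂ (AlgebraicClosure ℂ) (a ^ w i * p i)) =
      mc (fun i => a ^ w i) fun i => algebraMap ℂ (AlgebraicClosure ℂ) (p i) := by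
    funext i
    unfold mc
    rw [map_mul]
  refine ⟨h1, ?_, h3, fun N hN => ?_⟩
  · obtain ⟨N, hN, z, hz⟩ := h2
    refine ⟨N, hN, mc (fun q : σ × Fin (N + 1) => a ^ w q.1) z, ?_⟩
    rw [hp]
    exact (jetE hg ha _ _ N z).1 hz
  · obtain ⟨P, k, hP, hk⟩ := h4 N hN
    refine ⟨P, k, hP, ?_⟩
    rw [← hk]
    congr 1
    rw [hp]
    exact (cls_eq (fun q : σ × Fin (N + 1) => pow_ne_zero _ ha) _ _
      fun z => jetE hg ha _ _ N z).symm

end Pool.Agent.D0H35.CX
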