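import Pool.Agent.D0H35.CX.Ordt

/-!
Module APEX of project CX.
-/

set_option autoImplicit false

namespace Pool.Agent.D0H35.CX

open MvPolynomial Pool.Agent.W428.MOT Pool.Agent.TH192.MT Pool.Agent.TH192.DT
  Pool.Agent.D0H67.SUB Pool.Agent.D0H67.PM Pool.Agent.D0H67.SUB.Trn Pool.Agent.D0H67.CX

variable {K : Type} [Field K] {σ τ : Type}

theorem coeff_ar {N : ℕ} (z : Pt K (σ × Fin (N + 1))) (k : ℕ) (i : σ) :
    PowerSeries.coeff k (ar z i) = jk z k i := by
  simp only [ar, PowerSeries.coeff_mk]
  rfl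

/-- division of an arc by a power of `t` -/
theorem ar_factor {N : ℕ} (z : Pt K (σ × Fin (N + 1))) (a : ℕ) (h : ∀ k < a, jk z k = 0) :
    ∃ w : σ → PowerSeries (AlgebraicClosure K), (∀ i, ar z i = PowerSeries.X ^ a * w i) ∧
      (fun i => PowerSeries.coeff 0 (w i)) = jk z a := by
  have h1 : ∀ i, PowerSeries.X ^ a ∣ ar z i := by
    intro i
    rw [PowerSeries.X_pow_dvd_iff]
    intro m hm
    rw [coeff_ar]
    exact congrFun (h m hm) i
  choose w hw using h1
  refine ⟨w, hw, ?_⟩
  funext i
  have h2 : jk z a i = PowerSeries.coeff a (ar z i) := (coeff_ar z a i).symm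
  have h3 := PowerSeries.coeff_X_pow_mul (w i) a 0
  rw [zero_add] at h3
  rw [h2, hw i, h3]

theorem t_APEX : S_APEX := by
  intro K _ σ J _ g d hd hg f₀ hf₀ hspan v hv hfv N
  ext z
  rw [mem_JetE, Set.mem_ofPred_eq]
  refine and_congr Iff.rfl ?_
  constructor
  · rintro ⟨hj, c, hc, he⟩
    -- `x_i f₀`
    have hx : ∀ i, PowerSeries.X ^ N ∣ ar z i * aeval (ar z) f₀ ∧
        PowerSeries.coeff N (ar z i * aeval (ar z) f₀) = c * (v i * aeval v f₀) := by
      intro i
      let P : MvPolynomial σ K → Prop := fun G => PowerSeries.X ^ N ∣ aeval (ar z) G ∧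
        PowerSeries.coeff N (aeval (ar z) G) = c * aeval v G
      have hP : P (X i * f₀) := by
        refine Submodule.span_induction (p := fun G _ => P G) ?_ ?_ ?_ ?_ (hspan i)
        · rintro G ⟨j, rfl⟩
          exact ⟨hj j, he j⟩
        · exact ⟨by simp, by simp⟩
        · intro G G' _ _ h1 h2
          refine ⟨by rw [map_add]; exact dvd_add h1.1 h2.1, ?_⟩
          rw [map_add, map_add, map_add, h1.2, h2.2, mul_add]
        · intro r G _ h1
          have h2 : aeval (ar z) (r • G) = PowerSeries.C (algebraMap K (AlgebraicClosure K) r) *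
              aeval (ar z) G := by
            rw [map_smul, Algebra.smul_def, PowerSeries.algebraMap_apply]
          refine ⟨by rw [h2]; exact h1.1.mul_left _, ?_⟩
          rw [h2, PowerSeries.coeff_C_mul, h1.2, map_smul, Algebra.smul_def]
          ring
      have h1 := hP.1
      have h2 := hP.2
      rw [map_mul (aeval (ar z)), aeval_X] at h1 h2
      rw [map_mul (aeval v), aeval_X] at h2
      exact ⟨h1, h2⟩
    obtain ⟨i₁, hi₁⟩ : ∃ i, v i ≠ 0 := by
      by_contra hcon
      push Not at hcon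
      exact hv (funext hcon)
    have hne : ∃ k, jk z k ≠ 0 := by
      by_contra hcon
      push Not at hcon
      have h0 : ar z i₁ = 0 := by
        ext k
        rw [coeff_ar, map_zero]
        exact congrFun (hcon k) i₁
      have h1 := (hx i₁).2
      rw [h0, zero_mul, map_zero] at h1
      exact (mul_ne_zero hc (mul_ne_zero hi₁ hfv)) h1.symm
    classical
    let a := Nat.find hne
    have ha : jk z a ≠ 0 := Nat.find_spec hne
    have hlt : ∀ k < a, jk z k = 0 := fun k hk => not_not.1 (Nat.find_min hne hk)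
    obtain ⟨w, hw, hw0⟩ := ar_factor z a hlt
    have hw' : ar z = fun i => PowerSeries.X ^ a * w i := funext hw
    have hf : aeval (ar z) f₀ = (PowerSeries.X ^ a) ^ (d - 1) * aeval w f₀ := by
      rw [hw', hom_aeval hf₀]
    have hs : aeval w f₀ ≠ 0 := by
      intro h0
      have h1 := (hx i₁).2
      rw [hf, h0, mul_zero, mul_zero, map_zero] at h1
      exact (mul_ne_zero hc (mul_ne_zero hi₁ hfv)) h1.symm
    have hsk : ∃ m, PowerSeries.coeff m (aeval w f₀) ≠ 0 := by
      by_contra hcon
      push Not at hcon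
      exact hs (PowerSeries.ext (fun n => by rw [hcon n, map_zero]))
    let m := Nat.find hsk
    have hm : PowerSeries.coeff m (aeval w f₀) ≠ 0 := Nat.find_spec hsk
    have hm' : ∀ k < m, PowerSeries.coeff k (aeval w f₀) = 0 :=
      fun k hk => not_not.1 (Nat.find_min hsk hk)
    obtain ⟨s', hs'⟩ : PowerSeries.X ^ m ∣ aeval w f₀ := PowerSeries.X_pow_dvd_iff.2 hm'
    have hs0 : PowerSeries.coeff 0 s' ≠ 0 := by
      rw [hs'] at hm
      have h3 := PowerSeries.coeff_X_pow_mul s' m 0
      rw [zero_add] at h3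
      rwa [h3] at hm
    have hprod : ∀ i, ar z i * aeval (ar z) f₀ = PowerSeries.X ^ (d * a + m) * (w i * s') := by
      intro i
      rw [hf, hw i, hs']
      obtain ⟨e, rfl⟩ : ∃ e, d = e + 1 := ⟨d - 1, by omega⟩
      rw [Nat.add_sub_cancel]
      ring
    have hco : ∀ i, PowerSeries.coeff (d * a + m) (ar z i * aeval (ar z) f₀) =
        jk z a i * PowerSeries.coeff 0 s' := by
      intro i
      have h3 := PowerSeries.coeff_X_pow_mul (w i * s') (d * a + m) 0
      rw [zero_add] at h3
      rw [hprod i, h3, coeff_zero_mul', ← hw0]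
    have hN : d * a + m = N := by
      apply le_antisymm
      · by_contra hcon
        push Not at hcon
        have h1 := (hx i₁).2
        rw [hprod i₁, PowerSeries.coeff_X_pow_mul', if_neg (by omega)] at h1
        exact (mul_ne_zero hc (mul_ne_zero hi₁ hfv)) h1.symm
      · obtain ⟨i₀, hi₀⟩ : ∃ i, jk z a i ≠ 0 := by
          by_contra hcon
          push Not at hcon
          exact ha (funext hcon)
        by_contra hcon
        push Not at hcon
        have h1 := PowerSeries.X_pow_dvd_iff.1 (hx i₀).1 _ hcon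
        rw [hco i₀] at h1
        exact (mul_ne_zero hi₀ hs0) h1
    have hza : jk z a = (c * aeval v f₀ / PowerSeries.coeff 0 s') • v := by
      funext i
      have h1 := hco i
      rw [hN, (hx i).2] at h1
      rw [Pi.smul_apply, smul_eq_mul, div_mul_eq_mul_div, eq_div_iff hs0, ← h1]
      ring
    have hρ : c * aeval v f₀ / PowerSeries.coeff 0 s' ≠ 0 := div_ne_zero (mul_ne_zero hc hfv) hs0
    have hm0 : m = 0 := by
      by_contra hcon
      have h1 := hm' 0 (Nat.pos_of_ne_zero hcon)
      rw [coeff_zero_aeval, hw0, hza] at h1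
      have h2 := hom_aeval hf₀ (c * aeval v f₀ / PowerSeries.coeff 0 s') v
      have h3 : ((c * aeval v f₀ / PowerSeries.coeff 0 s') • v : σ → AlgebraicClosure K) =
          fun i => (c * aeval v f₀ / PowerSeries.coeff 0 s') * v i := rfl
      rw [h3, h2] at h1
      exact (mul_ne_zero (pow_ne_zero _ hρ) hfv) h1
    refine ⟨a, fun k hk => (Submodule.mem_bot _).2 (hlt k hk), ?_, by rw [← hN, hm0, add_zero]⟩
    refine ⟨_, hρ, ?_⟩
    rw [hza, sub_self]
    exact Submodule.zero_mem _
  · rintro ⟨a, hlt, ⟨ρ, hρ, hρv⟩, hN⟩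
    have hlt' : ∀ k < a, jk z k = 0 := fun k hk => (Submodule.mem_bot _).1 (hlt k hk)
    have hρv' : jk z a = ρ • v := sub_eq_zero.1 ((Submodule.mem_bot _).1 hρv)
    obtain ⟨w, hw, hw0⟩ := ar_factor z a hlt'
    have hw' : ar z = fun i => PowerSeries.X ^ a * w i := funext hw
    have hgj : ∀ j, aeval (ar z) (g j) = PowerSeries.X ^ N * aeval w (g j) := by
      intro j
      rw [hw', hom_aeval (hg j), ← pow_mul, mul_comm a d, hN]
    refine ⟨fun j => ⟨_, hgj j⟩, ρ ^ d, pow_ne_zero _ hρ, fun j => ?_⟩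
    have h3 := PowerSeries.coeff_X_pow_mul (aeval w (g j)) N 0
    rw [zero_add] at h3
    rw [hgj j, h3, coeff_zero_aeval, hw0, hρv']
    exact hom_aeval (hg j) ρ v

end Pool.Agent.D0H35.CX
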