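import Pool.Agent.D0H35.CX.Pw

/-!
Module ORDT of project CX.
-/

set_option autoImplicit false

namespace Pool.Agent.D0H35.CX

open MvPolynomial Pool.Agent.W428.MOT Pool.Agent.TH192.MT Pool.Agent.TH192.DT
  Pool.Agent.D0H67.SUB Pool.Agent.D0H67.PM Pool.Agent.D0H67.SUB.Trn Pool.Agent.D0H67.CX

variable {K : Type} [Field K] {σ τ : Type}

/-- order of an ideal on an arc, from the relations -/
theorem dvd_of_rel {J J' : Type} [Fintype J'] {N : ℕ} (z : Pt K (σ × Fin (N + 1)))
    {h : MvPolynomial σ K} (hz : aeval (jk z 0) h ≠ 0) {g : J → MvPolynomial σ K}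
    {b : J' → MvPolynomial σ K} {H : J → J' → MvPolynomial σ K}
    (hH : ∀ j, ∑ l, H j l * b l = h * g j) {n : ℕ}
    (hb : ∀ l, PowerSeries.X ^ n ∣ aeval (ar z) (b l)) (j : J) :
    PowerSeries.X ^ n ∣ aeval (ar z) (g j) := by
  have hu : IsUnit (aeval (ar z) h) := by
    rw [PowerSeries.isUnit_iff_constantCoeff, ← PowerSeries.coeff_zero_eq_constantCoeff_apply,
      coeff_zero_ar]
    exact hz.isUnit
  rw [← hu.dvd_mul_left, ← map_mul, ← hH j, map_sum]
  refine Finset.dvd_sum fun l _ => ?_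
  rw [map_mul]
  exact (hb l).mul_left _

/-- leading coefficients, from the relations -/
theorem coeff_of_rel {J J' : Type} [Fintype J'] {N : ℕ} (z : Pt K (σ × Fin (N + 1)))
    {h : MvPolynomial σ K} {g : J → MvPolynomial σ K}
    {b : J' → MvPolynomial σ K} {H : J → J' → MvPolynomial σ K}
    (hH : ∀ j, ∑ l, H j l * b l = h * g j) {n : ℕ}
    (hb : ∀ l, PowerSeries.X ^ n ∣ aeval (ar z) (b l))
    (hg : ∀ j, PowerSeries.X ^ n ∣ aeval (ar z) (g j)) (j : J) :
    aeval (jk z 0) h * PowerSeries.coeff n (aeval (ar z) (g j)) =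
      ∑ l, aeval (jk z 0) (H j l) * PowerSeries.coeff n (aeval (ar z) (b l)) := by
  have h1 := congrArg (fun q => PowerSeries.coeff n (aeval (ar z) q)) (hH j)
  simp only [map_sum, map_mul (aeval (ar z))] at h1
  rw [coeff_mul_dvd (hg j), coeff_zero_ar] at h1
  rw [← h1]
  refine Finset.sum_congr rfl fun l _ => ?_
  rw [coeff_mul_dvd (hb l), coeff_zero_ar]

theorem dvd_push (f : τ → MvPolynomial σ K) {N : ℕ} (z : Pt K (σ × Fin (N + 1)))
    (G : MvPolynomial τ K) {n : ℕ} (hn : n ≤ N + 1) :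
    PowerSeries.X ^ n ∣ aeval (ar (push f z)) G ↔
      PowerSeries.X ^ n ∣ aeval (ar z) (bind₁ f G) := by
  rw [PowerSeries.X_pow_dvd_iff, PowerSeries.X_pow_dvd_iff]
  refine forall₂_congr fun m hm => ?_
  rw [push_coeff f z G (by omega)]

theorem mem_JetF {J : Type} {g : J → MvPolynomial σ K} {V : Set (Pt K σ)} {N : ℕ}
    {z : Pt K (σ × Fin (N + 1))} : z ∈ JetF g V N ↔ jk z 0 ∈ V ∧
      (∀ j, PowerSeries.X ^ N ∣ aeval (ar z) (g j)) ∧
      ¬ ∀ j, PowerSeries.X ^ (N + 1) ∣ aeval (ar z) (g j) := by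
  have h0 : jk z 0 = fun i => z (i, 0) := Lev.jk_zero z
  rw [h0]
  refine and_congr Iff.rfl ?_
  have h1 : (∀ j, PowerSeries.X ^ N ∣ aeval (ar z) (g j)) ↔
      ∀ j, ∀ k < N, PowerSeries.coeff k (aeval (ar z) (g j)) = 0 :=
    forall_congr' fun j => PowerSeries.X_pow_dvd_iff
  rw [h1]
  refine and_congr_right fun h => ?_
  rw [not_forall]
  refine exists_congr fun j => not_congr ?_
  rw [PowerSeries.X_pow_dvd_iff]
  constructor
  · intro hN m hm
    rcases Nat.lt_succ_iff_lt_or_eq.1 hm with hm | rfl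
    · exact h j m hm
    · exact hN
  · intro hN
    exact hN N (Nat.lt_succ_self N)

theorem mem_JetE {J : Type} {g : J → MvPolynomial σ K} {p : Pt K σ} {y : J → AlgebraicClosure K}
    {N : ℕ} {z : Pt K (σ × Fin (N + 1))} : z ∈ JetE g p y N ↔ jk z 0 = p ∧
      (∀ j, PowerSeries.X ^ N ∣ aeval (ar z) (g j)) ∧
      ∃ c : AlgebraicClosure K, c ≠ 0 ∧
        ∀ j, PowerSeries.coeff N (aeval (ar z) (g j)) = c * y j := by
  have h0 : jk z 0 = fun i => z (i, 0) := Lev.jk_zero z
  rw [h0, funext_iff]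
  refine and_congr Iff.rfl (and_congr ?_ Iff.rfl)
  exact forall_congr' fun j => PowerSeries.X_pow_dvd_iff.symm

theorem jk_push (f : τ → MvPolynomial σ K) {N : ℕ} (z : Pt K (σ × Fin (N + 1))) :
    jk (push f z) 0 = vf f (jk z 0) := by
  funext i
  rw [Lev.jk_zero]
  show PowerSeries.coeff ((0 : Fin (N + 1)) : ℕ) (aeval (ar z) (f i)) = aeval (jk z 0) (f i)
  rw [← coeff_zero_ar]
  rfl

theorem t_ORDT : S_ORDT := by
  intro K _ σ τ J J' _ _ _ _ g g' f h h1 h2
  cases nonempty_fintype J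
  cases nonempty_fintype J'
  have h1' : ∀ j, ∃ H : J' → MvPolynomial σ K, ∑ l, H l * bind₁ f (g' l) = h * g j :=
    fun j => Ideal.mem_span_range_iff_exists_fun.1 (h1 j)
  have h2' : ∀ l, ∃ H : J → MvPolynomial σ K, ∑ j, H j * g j = h * bind₁ f (g' l) :=
    fun l => Ideal.mem_span_range_iff_exists_fun.1 (h2 l)
  choose H hH using h1'
  choose H' hH' using h2'
  have dv : ∀ {N : ℕ} (z : Pt K (σ × Fin (N + 1))), aeval (jk z 0) h ≠ 0 → ∀ n ≤ N + 1,
      ((∀ j, PowerSeries.X ^ n ∣ aeval (ar z) (g j)) ↔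
        ∀ l, PowerSeries.X ^ n ∣ aeval (ar (push f z)) (g' l)) := by
    intro N z hz n hn
    constructor
    · intro hj l
      rw [dvd_push f z (g' l) hn]
      exact dvd_of_rel z hz (g := fun l => bind₁ f (g' l)) hH' hj l
    · intro hl j
      exact dvd_of_rel z hz hH (fun l => (dvd_push f z (g' l) hn).1 (hl l)) j
  refine ⟨?_, ?_⟩
  · intro N z V hz
    rw [mem_JetF, mem_JetF, dv z hz N (by omega), dv z hz (N + 1) le_rfl]
    refine and_congr Iff.rfl ?_
    constructor
    · exact fun h => ⟨trivial, h⟩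
    · exact fun h => h.2
  · intro p y' N₀ z₀ hp hz₀ hm₀
    -- the coefficients
    have c1 : ∀ {N : ℕ} (z : Pt K (σ × Fin (N + 1))), jk z 0 = p →
        (∀ j, PowerSeries.X ^ N ∣ aeval (ar z) (g j)) →
        (∀ j, aeval p h * PowerSeries.coeff N (aeval (ar z) (g j)) =
          ∑ l, aeval p (H j l) * PowerSeries.coeff N (aeval (ar (push f z)) (g' l))) ∧
        ∀ l, aeval p h * PowerSeries.coeff N (aeval (ar (push f z)) (g' l)) =
          ∑ j, aeval p (H' l j) * PowerSeries.coeff N (aeval (ar z) (g j)) := by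
      intro N z hz hj
      have hz' : aeval (jk z 0) h ≠ 0 := by rw [hz]; exact hp
      have hl := (dv z hz' N (by omega)).1 hj
      have hl' : ∀ l, PowerSeries.X ^ N ∣ aeval (ar z) (bind₁ f (g' l)) :=
        fun l => (dvd_push f z (g' l) (by omega)).1 (hl l)
      have a1 := coeff_of_rel z hH hl' hj
      have a2 := coeff_of_rel z (g := fun l => bind₁ f (g' l)) hH' hj hl'
      rw [hz] at a1 a2
      simp only [push_coeff f z _ (Nat.lt_succ_self N)]
      exact ⟨a1, a2⟩
    have push0 : ∀ {N : ℕ} (z : Pt K (σ × Fin (N + 1))), jk z 0 = p →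
        jk (push f z) 0 = vf f p := by
      intro N z hz
      rw [jk_push, hz]
    obtain ⟨-, hd₀, c₀, hc₀, he₀⟩ := mem_JetE.1 hm₀
    let y : J → AlgebraicClosure K := fun j => (∑ l, aeval p (H j l) * y' l) / aeval p h
    have hz₀' : aeval (jk z₀ 0) h ≠ 0 := by rw [hz₀]; exact hp
    have hj₀ := (dv z₀ hz₀' N₀ (by omega)).2 hd₀
    -- the direction from `g'` to `g`
    have fwd : ∀ {N : ℕ} (z : Pt K (σ × Fin (N + 1))), jk z 0 = p →
        (∀ j, PowerSeries.X ^ N ∣ aeval (ar z) (g j)) → ∀ c : AlgebraicClosure K,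
        (∀ l, PowerSeries.coeff N (aeval (ar (push f z)) (g' l)) = c * y' l) →
        ∀ j, PowerSeries.coeff N (aeval (ar z) (g j)) = c * y j := by
      intro N z hz hj c hc j
      have a1 := (c1 z hz hj).1 j
      have : aeval p h * PowerSeries.coeff N (aeval (ar z) (g j)) = aeval p h * (c * y j) := by
        rw [a1]
        show _ = aeval p h * (c * ((∑ l, aeval p (H j l) * y' l) / aeval p h))
        rw [mul_left_comm, mul_div_cancel₀ _ hp, Finset.mul_sum]
        refine Finset.sum_congr rfl fun l _ => ?_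
        rw [hc l]
        ring
      exact mul_left_cancel₀ hp this
    have rel : ∀ l, ∑ j, aeval p (H' l j) * y j = aeval p h * y' l := by
      intro l
      have a2 := (c1 z₀ hz₀ hj₀).2 l
      rw [he₀ l] at a2
      have a3 : ∑ j, aeval p (H' l j) * PowerSeries.coeff N₀ (aeval (ar z₀) (g j)) =
          c₀ * ∑ j, aeval p (H' l j) * y j := by
        rw [Finset.mul_sum]
        refine Finset.sum_congr rfl fun j _ => ?_
        rw [fwd z₀ hz₀ hj₀ c₀ he₀ j]
        ring
      rw [a3] at a2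
      apply mul_left_cancel₀ hc₀
      rw [← a2]
      ring
    refine ⟨y, ?_, ?_⟩
    · intro hy' hy
      apply hy'
      funext l
      have := rel l
      rw [hy] at this
      simp only [Pi.zero_apply, mul_zero, Finset.sum_const_zero] at this
      exact (mul_eq_zero.1 this.symm).resolve_left hp
    · intro N
      ext z
      rw [mem_JetE, Set.mem_ofPred_eq, mem_JetE]
      constructor
      · rintro ⟨hz, hj, c, hc, he⟩
        have hz' : aeval (jk z 0) h ≠ 0 := by rw [hz]; exact hp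
        refine ⟨hz, push0 z hz, (dv z hz' N (by omega)).1 hj, c, hc, fun l => ?_⟩
        have a2 := (c1 z hz hj).2 l
        apply mul_left_cancel₀ hp
        rw [a2]
        have a3 : ∑ j, aeval p (H' l j) * PowerSeries.coeff N (aeval (ar z) (g j)) =
            c * ∑ j, aeval p (H' l j) * y j := by
          rw [Finset.mul_sum]
          refine Finset.sum_congr rfl fun j _ => ?_
          rw [he j]
          ring
        rw [a3, rel l]
        ring
      · rintro ⟨hz, -, hl, c, hc, he⟩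
        have hz' : aeval (jk z 0) h ≠ 0 := by rw [hz]; exact hp
        have hj := (dv z hz' N (by omega)).2 hl
        exact ⟨hz, hj, c, hc, fwd z hz hj c he⟩

end Pool.Agent.D0H35.CX
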