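import Pool.Agent.D0H67.CX.Stm

/-!
Power series and jets: lemmas for the modules ORDT and APEX of project CX.
-/

set_option autoImplicit false

namespace Pool.Agent.D0H35.CX

open MvPolynomial Pool.Agent.W428.MOT Pool.Agent.TH192.MT Pool.Agent.TH192.DT
  Pool.Agent.D0H67.SUB Pool.Agent.D0H67.PM Pool.Agent.D0H67.SUB.Trn Pool.Agent.D0H67.CX

variable {K : Type} [Field K] {σ τ : Type}

theorem coeff_zero_mul' {S : Type} [CommRing S] (p q : PowerSeries S) :
    PowerSeries.coeff 0 (p * q) = PowerSeries.coeff 0 p * PowerSeries.coeff 0 q := by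
  simp

theorem coeff_zero_aeval (G : MvPolynomial σ K) (u : σ → PowerSeries (AlgebraicClosure K)) :
    PowerSeries.coeff 0 (aeval u G) = aeval (fun i => PowerSeries.coeff 0 (u i)) G := by
  induction G using MvPolynomial.induction_on with
  | C a => simp [PowerSeries.algebraMap_apply]
  | add p q hp hq => rw [map_add, map_add, map_add, hp, hq]
  | mul_X p i hp => rw [map_mul (aeval u), aeval_X, coeff_zero_mul', hp, map_mul, aeval_X]

theorem coeff_zero_ar (G : MvPolynomial σ K) {N : ℕ} (z : Pt K (σ × Fin (N + 1))) :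
    PowerSeries.coeff 0 (aeval (ar z) G) = aeval (jk z 0) G := by
  rw [coeff_zero_aeval]
  congr 2
  funext i
  simp [ar, jk]

theorem coeff_mul_dvd {S : Type} [CommRing S] {N : ℕ} {a b : PowerSeries S}
    (hb : PowerSeries.X ^ N ∣ b) :
    PowerSeries.coeff N (a * b) = PowerSeries.coeff 0 a * PowerSeries.coeff N b := by
  obtain ⟨q, rfl⟩ := hb
  have h1 := PowerSeries.coeff_X_pow_mul (a * q) N 0
  have h2 := PowerSeries.coeff_X_pow_mul q N 0
  rw [zero_add] at h1 h2
  rw [h2, mul_left_comm, h1, coeff_zero_mul']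

theorem dvd_sub_aeval (G : MvPolynomial τ K) {n : ℕ} {u u' : τ → PowerSeries (AlgebraicClosure K)}
    (h : ∀ i, PowerSeries.X ^ n ∣ u i - u' i) : PowerSeries.X ^ n ∣ aeval u G - aeval u' G := by
  induction G using MvPolynomial.induction_on with
  | C a => simp
  | add p q hp hq =>
    rw [map_add, map_add, add_sub_add_comm]
    exact dvd_add hp hq
  | mul_X p i hp =>
    rw [map_mul, map_mul, aeval_X, aeval_X]
    have : (aeval u) p * u i - (aeval u') p * u' i =
      ((aeval u) p - (aeval u') p) * u i + (aeval u') p * (u i - u' i) := by ring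
    rw [this]
    exact dvd_add (hp.mul_right _) ((h i).mul_left _)

theorem hom_aeval {S : Type} [CommRing S] [Algebra K S] {G : MvPolynomial σ K} {n : ℕ}
    (hG : G.IsHomogeneous n) (r : S) (u : σ → S) :
    aeval (fun i => r * u i) G = r ^ n * aeval u G := by
  rw [aeval_def, aeval_def, eval₂_eq, eval₂_eq, Finset.mul_sum]
  refine Finset.sum_congr rfl fun d hd => ?_
  have h1 : ∏ i ∈ d.support, (r * u i) ^ d i = r ^ n * ∏ i ∈ d.support, u i ^ d i := by
    rw [Finset.prod_congr rfl fun i _ => mul_pow r (u i) (d i), Finset.prod_mul_distrib,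
      Finset.prod_pow_eq_pow_sum]
    congr 2
    exact (hG.degree_eq_sum_deg_support hd).symm
  rw [h1]
  ring

theorem ar_push (f : τ → MvPolynomial σ K) {N : ℕ} (z : Pt K (σ × Fin (N + 1))) (i : τ) :
    PowerSeries.X ^ (N + 1) ∣ ar (push f z) i - aeval (ar z) (f i) := by
  rw [PowerSeries.X_pow_dvd_iff]
  intro m hm
  rw [map_sub, sub_eq_zero]
  simp only [ar, PowerSeries.coeff_mk, dif_pos hm]
  rfl

theorem push_dvd (f : τ → MvPolynomial σ K) {N : ℕ} (z : Pt K (σ × Fin (N + 1)))
    (G : MvPolynomial τ K) :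
    PowerSeries.X ^ (N + 1) ∣ aeval (ar (push f z)) G - aeval (ar z) (bind₁ f G) := by
  rw [aeval_bind₁]
  exact dvd_sub_aeval G (ar_push f z)

theorem push_coeff (f : τ → MvPolynomial σ K) {N : ℕ} (z : Pt K (σ × Fin (N + 1)))
    (G : MvPolynomial τ K) {k : ℕ} (hk : k < N + 1) :
    PowerSeries.coeff k (aeval (ar (push f z)) G) =
      PowerSeries.coeff k (aeval (ar z) (bind₁ f G)) := by
  have := PowerSeries.X_pow_dvd_iff.1 (push_dvd f z G) k hk
  rwa [map_sub, sub_eq_zero] at this

end Pool.Agent.D0H35.CX
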