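import Pool.Agent.D0H67.CX.Stm3
import Pool.Agent.D0H87.CX.Rec
import Pool.Agent.D0H35.CX.Scale2

/-! # CX: ADD2 and REC2 (after helper87's module Rec) -/

set_option autoImplicit false
set_option linter.unusedSectionVars false
set_option linter.unusedVariables false

namespace Pool.Agent.D0H35.CX

open MvPolynomial Pool.Agent.W428.MOT Pool.Agent.TH192.MT Pool.Agent.D0H67.SUB
  Pool.Agent.D0H67.SUB.Lev Pool.Agent.D0H67.SUB.Shift
open Pool.Agent.D0H67.CX
open Pool.Agent.D0H87.CX.Rec

/-- **ADD2.** -/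
theorem t_ADD2 : S_ADD2 := by
  intro K _ σ J _ _ g R _ M v hv
  classical
  have hJ : ∀ V N, JetF g V N = OS g V N N := fun V N => rfl
  refine ⟨?_, ?_⟩
  · intro V W hV hW hVW
    ext N
    unfold ZF
    rw [map_add, PowerSeries.coeff_mk, PowerSeries.coeff_mk, PowerSeries.coeff_mk, ← add_mul]
    congr 1
    rw [hJ, hJ, hJ, ← M.add _ _ (constr_OS g hV N N) (constr_OS g hW N N)]
    · congr 1
      ext z
      unfold OS
      simp only [Set.mem_ofPred_eq, Set.mem_union]
      tauto
    · rw [Set.disjoint_left]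
      intro z hz hz'
      exact Set.disjoint_left.1 hVW hz.1 hz'.1
  · intro V hV hVg
    ext N
    unfold ZF
    rw [PowerSeries.coeff_mk, hJ, PowerSeries.coeff_C]
    split_ifs with hN
    · subst hN
      rw [mul_zero, pow_zero, mul_one]
      refine M.iso _ _ (constr_OS g hV 0 0) hV (fun z i => z (i, 0)) (fun x p => x p.1)
        (regularOn_poly (fun i => IsPF.coord _) _) (regularOn_poly (fun i => IsPF.coord _) _)
        ?_ ?_ ?_ ?_
      · intro z hz
        exact hz.1
      · intro x hx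
        refine ⟨hx, fun j k hk => absurd hk (Nat.not_lt_zero _), ?_⟩
        obtain ⟨j, hj⟩ := hVg x hx
        refine ⟨j, ?_⟩
        rw [coeff_zero_aeval']
        exact hj
      · intro z _
        funext ⟨i, k⟩
        change z (i, 0) = z (i, k)
        rw [show k = 0 from Fin.ext (by omega)]
      · intro x _
        rfl
    · have h1 : OS g V N N = ∅ := by
        rw [Set.eq_empty_iff_forall_notMem]
        rintro z ⟨h2, h3, -⟩
        obtain ⟨j, hj⟩ := hVg _ h2
        apply hj
        rw [← coeff_zero_aeval']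
        exact h3 j 0 (Nat.pos_of_ne_zero hN)
      rw [h1]
      have h2 := M.add (∅ : Set (Pt K (σ × Fin (N + 1)))) ∅ Constr.empty Constr.empty
        (Set.disjoint_empty _)
      rw [Set.empty_union] at h2
      rw [left_eq_add.1 h2, zero_mul]

namespace Rec2

variable {K : Type} [Field K] {σ J : Type}

/-- the free coordinates: all but the last coefficients of the variables of weight 1 -/
abbrev TT (w : σ → ℕ) (N : ℕ) : Type := {p : σ × Fin (N + 1) // w p.1 = 1 → (p.2 : ℕ) < N}

/-- extension by zero -/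
noncomputable def ex (w : σ → ℕ) {N : ℕ} (s : Pt K (TT w N)) : Pt K (σ × Fin (N + 1)) :=
  fun p => if h : w p.1 = 1 → (p.2 : ℕ) < N then s ⟨p, h⟩ else 0

/-- division by `t` -/
noncomputable def shw (w : σ → ℕ) {N : ℕ} (z : Pt K (σ × Fin (N + 1))) : Pt K (TT w N) :=
  fun p => if h : w p.1.1 = 1 then z (p.1.1, ⟨(p.1.2 : ℕ) + 1, by have := p.2 h; omega⟩) else z p.1

/-- multiplication by `t` -/
noncomputable def mtw (w : σ → ℕ) {N : ℕ} (s : Pt K (TT w N)) : Pt K (σ × Fin (N + 1)) :=
  fun p => if h : w p.1 = 1 then (if h0 : (p.2 : ℕ) = 0 then 0 else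
    s ⟨(p.1, ⟨(p.2 : ℕ) - 1, by omega⟩), fun _ => by
      have := p.2.2
      change (p.2 : ℕ) - 1 < N
      omega⟩) else s ⟨p, fun h' => absurd h' h⟩

theorem shw_mtw (w : σ → ℕ) {N : ℕ} (s : Pt K (TT w N)) : shw w (mtw w s) = s := by
  funext ⟨⟨i, k⟩, hp⟩
  unfold shw mtw
  by_cases h : w i = 1
  · simp only [h, dite_true]
    rw [dif_neg (by simp)]
    congr 1
  · simp only [h, dite_false]

theorem mtw_shw (w : σ → ℕ) {N : ℕ} (z : Pt K (σ × Fin (N + 1))) (hz : ∀ i, z (i, 0) = 0) :
    mtw w (shw w z) = z := by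
  funext ⟨i, k⟩
  unfold shw mtw
  by_cases h : w i = 1
  · simp only [h, dite_true]
    split_ifs with h0
    · rw [← hz i]
      congr 2
      exact Fin.ext (by simp [h0])
    · congr 2
      exact Fin.ext (by
        change (k : ℕ) - 1 + 1 = k
        omega)
  · simp only [h, dite_false]

theorem pf_shw (w : σ → ℕ) {N : ℕ} (p : TT w N) :
    IsPF fun z : Pt K (σ × Fin (N + 1)) => shw w z p := by
  unfold shw
  split_ifs
  · exact IsPF.coord _
  · exact IsPF.coord _

theorem pf_mtw (w : σ → ℕ) {N : ℕ} (p : σ × Fin (N + 1)) :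
    IsPF fun s : Pt K (TT w N) => mtw w s p := by
  unfold mtw
  split_ifs
  · exact IsPF.zero
  · exact IsPF.coord _
  · exact IsPF.coord _

theorem pf_ex (w : σ → ℕ) {N : ℕ} (p : σ × Fin (N + 1)) :
    IsPF fun s : Pt K (TT w N) => ex w s p := by
  unfold ex
  split_ifs
  · exact IsPF.coord _
  · exact IsPF.zero

/-- `z_i = t u_i` for the variables of weight 1 -/
theorem ar_mtw {w : σ → ℕ} (hw : ∀ i, w i ≤ 1) {N : ℕ} (s : Pt K (TT w N)) (i : σ) :
    ar (mtw w s) i = PowerSeries.X ^ w i * ar (ex w s) i := by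
  by_cases h : w i = 1
  · rw [h, pow_one]
    ext k
    rcases k with _ | k
    · rw [PowerSeries.coeff_zero_X_mul, coeff_ar, dif_pos (by omega)]
      unfold mtw
      rw [dif_pos h, dif_pos rfl]
    · rw [PowerSeries.coeff_succ_X_mul, coeff_ar, coeff_ar]
      by_cases h1 : k + 1 < N + 1
      · rw [dif_pos h1, dif_pos (by omega : k < N + 1)]
        unfold mtw ex
        rw [dif_pos h, dif_neg (by simp), dif_pos (fun _ => by
          change k < N
          omega)]
        congr 1
      · rw [dif_neg h1]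
        split_ifs with h2
        · unfold ex
          rw [dif_neg]
          intro h3
          have h4 : k < N := h3 h
          omega
        · rfl
  · have h0 : w i = 0 := by have := hw i; omega
    rw [h0, pow_zero, one_mul]
    ext k
    rw [coeff_ar, coeff_ar]
    split_ifs with h1
    · unfold mtw ex
      rw [dif_neg h, dif_pos (fun h' => absurd h' h)]
    · rfl

theorem mem_mtw {w : σ → ℕ} (hw : ∀ i, w i ≤ 1) {N d : ℕ} (g : J → MvPolynomial σ K)
    (hg : ∀ j, (g j).IsWeightedHomogeneous w d) (s : Pt K (TT w N)) (m : ℕ) :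
    mtw w s ∈ OS g {0} m N ↔ d ≤ m ∧
      ex w s ∈ OS g {z | ∀ i, w i = 0 → z i = 0} (m - d) N := by
  have hc : ∀ j k, PowerSeries.coeff k (aeval (ar (mtw w s)) (g j)) =
      if d ≤ k then PowerSeries.coeff (k - d) (aeval (ar (ex w s)) (g j)) else 0 := by
    intro j k
    have h : ar (mtw w s) = fun i => PowerSeries.X ^ w i * ar (ex w s) i :=
      funext fun i => ar_mtw hw s i
    rw [h, Scale2.aeval_whom w _ _ (hg j), PowerSeries.coeff_X_pow_mul']
  have h0 : (fun i => mtw w s (i, 0)) ∈ ({0} : Set (Pt K σ)) ↔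
      (fun i => ex w s (i, 0)) ∈ {z : Pt K σ | ∀ i, w i = 0 → z i = 0} := by
    rw [Set.mem_singleton_iff, Set.mem_ofPred_eq, funext_iff]
    refine forall_congr' fun i => ?_
    by_cases h : w i = 1
    · have h1 : mtw w s (i, 0) = 0 := by
        unfold mtw
        rw [dif_pos h, dif_pos (by simp)]
      change mtw w s (i, 0) = 0 ↔ _
      rw [h1]
      simp [h]
    · have h0 : w i = 0 := by have := hw i; omega
      have h1 : mtw w s (i, 0) = ex w s (i, 0) := by
        unfold mtw ex
        rw [dif_neg h, dif_pos (fun h' => absurd h' h)]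
      change mtw w s (i, 0) = 0 ↔ (w i = 0 → ex w s (i, 0) = 0)
      rw [h1]
      simp [h0]
  unfold OS
  simp only [Set.mem_ofPred_eq, hc] at h0 ⊢
  constructor
  · rintro ⟨hz, h1, j, h2⟩
    have h3 : d ≤ m := by
      by_contra h
      rw [if_neg h] at h2
      exact h2 rfl
    refine ⟨h3, h0.1 hz, fun j k hk => ?_, j, ?_⟩
    · have := h1 j (k + d) (by omega)
      rwa [if_pos (by omega), Nat.add_sub_cancel] at this
    · rwa [if_pos h3] at h2
  · rintro ⟨h3, hz, h1, j, h2⟩
    refine ⟨h0.2 hz, fun j k hk => ?_, j, ?_⟩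
    · split_ifs with h
      · exact h1 j _ (by omega)
      · rfl
    · rwa [if_pos h3]

variable [Fintype σ]

theorem constr_V (w : σ → ℕ) : Constr {z : Pt K σ | ∀ i, w i = 0 → z i = 0} := by
  refine Constr.all fun i => ?_
  by_cases h : w i = 0
  · simp only [h, forall_const]
    exact Constr.eqz (IsPF.coord _)
  · simp only [h, false_imp_iff]
    exact Constr.const True

/-- the coordinates -/
noncomputable def eqw (w : σ → ℕ) (N : ℕ) : TT w N ⊕ {i // w i = 1} ≃ σ × Fin (N + 1) where
  toFun := Sum.elim (fun p => p.1) fun i => (i.1, Fin.last N)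
  invFun p := if h : w p.1 = 1 → (p.2 : ℕ) < N then Sum.inl ⟨p, h⟩ else
    Sum.inr ⟨p.1, by by_contra h'; exact h fun h'' => absurd h'' h'⟩
  left_inv := by
    rintro (⟨p, hp⟩ | ⟨i, hi⟩)
    · exact dif_pos hp
    · refine dif_neg fun h => ?_
      have := h hi
      change N < N at this
      omega
  right_inv := by
    rintro ⟨i, k⟩
    dsimp only
    split_ifs with h
    · rfl
    · simp only [Sum.elim_inr]
      congr 1
      refine Fin.ext ?_
      rw [Fin.val_last]
      by_contra h'
      exact h fun _ => by omega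

theorem card_w {w : σ → ℕ} (hw : ∀ i, w i ≤ 1) [Fintype {i // w i = 1}] :
    Fintype.card {i // w i = 1} = ∑ i, w i := by
  classical
  rw [Fintype.card_subtype, Finset.card_eq_sum_ones, Finset.sum_filter]
  refine Finset.sum_congr rfl fun i _ => ?_
  have := hw i
  split_ifs with h
  · exact h.symm
  · omega

theorem chi_w [Finite J] {w : σ → ℕ} (hw : ∀ i, w i ≤ 1) {d : ℕ} (hd : 0 < d)
    (g : J → MvPolynomial σ K) (hg : ∀ j, (g j).IsWeightedHomogeneous w d)
    {R : Type} [CommRing R] (M : Meas K R) (N : ℕ) (hN : d ≤ N) :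
    M.χ _ (OS g {z | ∀ i, w i = 0 → z i = 0} (N - d) N) =
      M.χ _ (OS g {0} N N) * M.L ^ (∑ i, w i) := by
  classical
  have hS : Constr {s : Pt K (TT w N) | ex w s ∈ OS g {z | ∀ i, w i = 0 → z i = 0} (N - d) N} :=
    (constr_OS g (constr_V w) (N - d) N).preimage (fun s => ex w s) (pf_ex w)
  have h1 := chi_split M (eqw w N) (OS g {z | ∀ i, w i = 0 → z i = 0} (N - d) N)
    {s : Pt K (TT w N) | ex w s ∈ OS g {z | ∀ i, w i = 0 → z i = 0} (N - d) N} hS ?_
  · rw [h1, card_w hw]
    congr 1
    refine (M.iso _ _ (constr_OS g ?_ N N) hS (fun z => shw w z) (fun s => mtw w s)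
      (regularOn_poly (pf_shw w) _) (regularOn_poly (pf_mtw w) _) ?_ ?_ ?_ ?_).symm
    · exact constr_z
    · intro z hz
      have hz0 : ∀ i, z (i, 0) = 0 := fun i => congrFun hz.1 i
      rw [← mtw_shw w z hz0, mem_mtw hw g hg] at hz
      exact hz.2
    · intro s hs
      rw [mem_mtw hw g hg]
      exact ⟨hN, hs⟩
    · intro z hz
      exact mtw_shw w z fun i => congrFun hz.1 i
    · intro s _
      exact shw_mtw w s
  · intro z
    have he : ∀ i, ∀ k ≤ N - d, PowerSeries.coeff k (ar z i) = PowerSeries.coeff k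
        (ar (ex w fun t => z (eqw w N (Sum.inl t))) i) := by
      intro i k hk
      rw [coeff_ar, coeff_ar, dif_pos (by omega), dif_pos (by omega)]
      unfold ex
      rw [dif_pos]
      · rfl
      · intro _
        change k < N
        omega
    have h1 : ∀ j, ∀ k ≤ N - d, PowerSeries.coeff k (aeval (ar z) (g j)) = PowerSeries.coeff k
        (aeval (ar (ex w fun t => z (eqw w N (Sum.inl t)))) (g j)) := fun j =>
      coeff_congr (N - d) _ _ he (g j)
    rw [Set.mem_ofPred_eq]
    unfold OS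
    simp only [Set.mem_ofPred_eq]
    refine and_congr ?_ (and_congr ?_ ?_)
    · refine forall_congr' fun i => forall_congr' fun hi => ?_
      have h2 := he i 0 (Nat.zero_le _)
      rw [coeff_ar, coeff_ar, dif_pos (by omega), dif_pos (by omega)] at h2
      have h3 : z (i, 0) = ex w (fun t => z (eqw w N (Sum.inl t))) (i, 0) := h2
      rw [← h3]
    · exact forall_congr' fun j => forall₂_congr fun k hk => by rw [h1 j k hk.le]
    · exact exists_congr fun j => by rw [h1 j _ le_rfl]

end Rec2

open Rec2 in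
/-- **REC2.** -/
theorem t_REC2 : S_REC2 := by
  intro K _ σ J _ _ g w d hw hd hg R _ M v hv
  classical
  have hJ : ∀ V N, JetF g V N = OS g V N N := fun V N => rfl
  ext N
  rw [mul_assoc, PowerSeries.coeff_C_mul, PowerSeries.coeff_X_pow_mul']
  unfold ZF
  rw [PowerSeries.coeff_mk, hJ]
  split_ifs with h
  · rw [PowerSeries.coeff_mk, hJ]
    have h1 := chi_w hw hd g hg M N h
    obtain ⟨l, hl⟩ : ∃ l, N = (N - d) + l := ⟨d, by omega⟩
    have h2 : ∀ N', N' = (N - d) + l →
        M.χ (σ × Fin (N' + 1)) (OS g {z | ∀ i, w i = 0 → z i = 0} (N - d) N') =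
        M.χ _ (OS g {z | ∀ i, w i = 0 → z i = 0} (N - d) (N - d)) *
          M.L ^ (Fintype.card σ * l) := by
      rintro N' rfl
      exact chi_level g (constr_V w) M _ _
    rw [h2 N hl] at h1
    have h3 : M.L ^ (∑ i, w i) * v ^ (∑ i, w i) = 1 := by rw [← mul_pow, hv, one_pow]
    have h4 : M.L ^ (Fintype.card σ * l) * v ^ (Fintype.card σ * l) = 1 := by
      rw [← mul_pow, hv, one_pow]
    have h5 : v ^ (Fintype.card σ * N) = v ^ (Fintype.card σ * (N - d)) *
        v ^ (Fintype.card σ * l) := by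
      rw [← pow_add, ← mul_add, ← hl]
    calc M.χ _ (OS g {0} N N) * v ^ (Fintype.card σ * N)
        = M.χ _ (OS g {0} N N) * (M.L ^ (∑ i, w i) * v ^ (∑ i, w i)) *
          v ^ (Fintype.card σ * N) := by rw [h3, mul_one]
      _ = (M.χ _ (OS g {0} N N) * M.L ^ (∑ i, w i)) * v ^ (∑ i, w i) *
          v ^ (Fintype.card σ * N) := by ring
      _ = v ^ (∑ i, w i) * (M.χ _ (OS g {z | ∀ i, w i = 0 → z i = 0} (N - d) (N - d)) *
          v ^ (Fintype.card σ * (N - d))) *
          (M.L ^ (Fintype.card σ * l) * v ^ (Fintype.card σ * l)) := by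
          rw [← h1, h5]
          ring
      _ = _ := by rw [h4, mul_one]
  · have h1 : OS g {0} N N = ∅ := by
      rw [Set.eq_empty_iff_forall_notMem]
      intro z hz
      have hz0 : ∀ i, z (i, 0) = 0 := fun i => congrFun hz.1 i
      rw [← mtw_shw w z hz0, mem_mtw hw g hg] at hz
      exact h hz.1
    rw [h1]
    have h2 := M.add (∅ : Set (Pt K (σ × Fin (N + 1)))) ∅ Constr.empty Constr.empty
      (Set.disjoint_empty _)
    rw [Set.empty_union] at h2
    rw [left_eq_add.1 h2, zero_mul, mul_zero]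

end Pool.Agent.D0H35.CX
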