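import Pool.Agent.D0H67.CX.Stm4
import Pool.Agent.D0H35.CX.Rec2

/-! # CX: REC3 -/

set_option autoImplicit false
set_option linter.unusedSectionVars false
set_option linter.unusedVariables false

namespace Pool.Agent.D0H35.CX

open MvPolynomial Pool.Agent.W428.MOT Pool.Agent.TH192.MT Pool.Agent.D0H67.SUB
  Pool.Agent.D0H67.SUB.Lev Pool.Agent.D0H67.SUB.Shift
open Pool.Agent.D0H67.CX
open Pool.Agent.D0H87.CX.Rec

namespace Rec3

/-! ### leading coefficients at the slope `a / b` -/

/-- the coefficient of `t ^ (a D / b)` of `p` is `c`, the ones before are `0` -/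
def Ld {F : Type} [Field F] (a b D : ℕ) (c : F) (p : PowerSeries F) : Prop :=
  (∀ k, b * k < a * D → PowerSeries.coeff k p = 0) ∧
  (∀ k, b * k = a * D → PowerSeries.coeff k p = c) ∧ ((∀ k, b * k ≠ a * D) → c = 0)

section

variable {F : Type} [Field F] {a b : ℕ}

theorem Ld.zero (D : ℕ) : Ld a b D (0 : F) 0 :=
  ⟨fun _ _ => by simp, fun _ _ => by simp, fun _ => rfl⟩

theorem Ld.one (hb : 0 < b) : Ld a b 0 (1 : F) 1 := by
  refine ⟨fun k hk => absurd hk (by simp), fun k hk => ?_, fun h => absurd (h 0) (by simp)⟩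
  rw [mul_zero] at hk
  have h1 : k = 0 := by
    rcases Nat.mul_eq_zero.mp hk with h | h
    · omega
    · exact h
  rw [h1, PowerSeries.coeff_zero_one]

theorem Ld.add {D : ℕ} {c e : F} {p q : PowerSeries F} (hp : Ld a b D c p) (hq : Ld a b D e q) :
    Ld a b D (c + e) (p + q) :=
  ⟨fun k hk => by rw [map_add, hp.1 k hk, hq.1 k hk, add_zero],
    fun k hk => by rw [map_add, hp.2.1 k hk, hq.2.1 k hk],
    fun h => by rw [hp.2.2 h, hq.2.2 h, add_zero]⟩

theorem Ld.mul (hb : 0 < b) {D E : ℕ} {c e : F} {p q : PowerSeries F} (hp : Ld a b D c p)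
    (hq : Ld a b E e q) : Ld a b (D + E) (c * e) (p * q) := by
  refine ⟨fun k hk => ?_, fun k hk => ?_, fun h => ?_⟩
  · rw [PowerSeries.coeff_mul]
    refine Finset.sum_eq_zero fun x hx => ?_
    have h1 := Finset.HasAntidiagonal.mem_antidiagonal.1 hx
    by_cases h2 : b * x.1 < a * D
    · rw [hp.1 _ h2, zero_mul]
    · have h3 : b * x.2 < a * E := by
        rw [← h1, mul_add, mul_add] at hk
        omega
      rw [hq.1 _ h3, mul_zero]
  · rw [PowerSeries.coeff_mul]
    by_cases hi : ∃ i, b * i = a * D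
    · obtain ⟨i, hi⟩ := hi
      have hik : i ≤ k := by
        have : b * i ≤ b * k := by rw [hi, hk, mul_add]; omega
        exact Nat.le_of_mul_le_mul_left this hb
      have hj : b * (k - i) = a * E := by
        rw [Nat.mul_sub, hk, hi, mul_add]
        omega
      rw [Finset.sum_eq_single (i, k - i)]
      · rw [hp.2.1 _ hi, hq.2.1 _ hj]
      · intro x hx hne
        have h1 := Finset.HasAntidiagonal.mem_antidiagonal.1 hx
        by_cases h2 : b * x.1 < a * D
        · rw [hp.1 _ h2, zero_mul]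
        · have h3 : b * x.2 < a * E := by
            have h4 : x.1 ≠ i := by
              intro h5
              apply hne
              refine Prod.ext h5 ?_
              dsimp only
              omega
            have h5 : i < x.1 := by
              by_contra h6
              have h7 : x.1 < i := by omega
              have h8 : b * x.1 < b * i := Nat.mul_lt_mul_of_pos_left h7 hb
              omega
            have h6 : b * i < b * x.1 := Nat.mul_lt_mul_of_pos_left h5 hb
            rw [← h1, mul_add, mul_add] at hk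
            omega
          rw [hq.1 _ h3, mul_zero]
      · intro h
        exact absurd (Finset.HasAntidiagonal.mem_antidiagonal.2 (by dsimp only; omega)) h
    · push Not at hi
      rw [hp.2.2 hi, zero_mul]
      refine Finset.sum_eq_zero fun x hx => ?_
      have h1 := Finset.HasAntidiagonal.mem_antidiagonal.1 hx
      by_cases h2 : b * x.1 < a * D
      · rw [hp.1 _ h2, zero_mul]
      · have h3 : b * x.2 < a * E := by
          have := hi x.1
          rw [← h1, mul_add, mul_add] at hk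
          omega
        rw [hq.1 _ h3, mul_zero]
  · by_contra hce
    have hc : c ≠ 0 := left_ne_zero_of_mul hce
    have he : e ≠ 0 := right_ne_zero_of_mul hce
    have h1 : ∃ i, b * i = a * D := by
      by_contra h2
      push Not at h2
      exact hc (hp.2.2 h2)
    have h2 : ∃ i, b * i = a * E := by
      by_contra h2
      push Not at h2
      exact he (hq.2.2 h2)
    obtain ⟨i, hi⟩ := h1
    obtain ⟨j, hj⟩ := h2
    exact h (i + j) (by rw [mul_add, mul_add, hi, hj])

theorem Ld.pow (hb : 0 < b) {D : ℕ} {c : F} {p : PowerSeries F} (hp : Ld a b D c p) (n : ℕ) :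
    Ld a b (n * D) (c ^ n) (p ^ n) := by
  induction n with
  | zero =>
    rw [zero_mul, pow_zero, pow_zero]
    exact Ld.one hb
  | succ n ih =>
    rw [pow_succ, pow_succ, add_mul, one_mul]
    exact ih.mul hb hp

theorem Ld.prod (hb : 0 < b) {ι : Type} (s : Finset ι) (D : ι → ℕ) (c : ι → F)
    (p : ι → PowerSeries F) (h : ∀ i ∈ s, Ld a b (D i) (c i) (p i)) :
    Ld a b (∑ i ∈ s, D i) (∏ i ∈ s, c i) (∏ i ∈ s, p i) := by
  classical
  induction s using Finset.induction_on with
  | empty =>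
    rw [Finset.sum_empty, Finset.prod_empty, Finset.prod_empty]
    exact Ld.one hb
  | insert i s hi ih =>
    rw [Finset.sum_insert hi, Finset.prod_insert hi, Finset.prod_insert hi]
    exact (h i (Finset.mem_insert_self _ _)).mul hb
      (ih fun j hj => h j (Finset.mem_insert_of_mem hj))

theorem Ld.sum {ι : Type} (s : Finset ι) (D : ℕ) (c : ι → F) (p : ι → PowerSeries F)
    (h : ∀ i ∈ s, Ld a b D (c i) (p i)) : Ld a b D (∑ i ∈ s, c i) (∑ i ∈ s, p i) := by
  classical
  induction s using Finset.induction_on with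
  | empty =>
    rw [Finset.sum_empty, Finset.sum_empty]
    exact Ld.zero _
  | insert i s hi ih =>
    rw [Finset.sum_insert hi, Finset.sum_insert hi]
    exact (h i (Finset.mem_insert_self _ _)).add
      (ih fun j hj => h j (Finset.mem_insert_of_mem hj))

theorem Ld.const (hb : 0 < b) (r : F) : Ld a b 0 r (PowerSeries.C r) := by
  refine ⟨fun k hk => absurd hk (by simp), fun k hk => ?_, fun h => absurd (h 0) (by simp)⟩
  rw [mul_zero] at hk
  have h1 : k = 0 := by
    rcases Nat.mul_eq_zero.mp hk with h | h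
    · omega
    · exact h
  rw [h1, PowerSeries.coeff_zero_C]

theorem Ld.aeval {K σ : Type} [Field K] [Algebra K F] (hb : 0 < b) (w : σ → ℕ) (u : σ → F)
    (γ : σ → PowerSeries F) (h : ∀ i, Ld a b (w i) (u i) (γ i)) {f : MvPolynomial σ K} {d : ℕ}
    (hf : f.IsWeightedHomogeneous w d) : Ld a b d (MvPolynomial.aeval u f)
      (MvPolynomial.aeval γ f) := by
  rw [aeval_def, aeval_def, eval₂_eq, eval₂_eq]
  refine Ld.sum _ _ _ _ fun m hm => ?_
  have h3 : ∑ i ∈ m.support, m i * w i = d := by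
    have := hf (mem_support_iff.1 hm)
    rw [← this, Finsupp.weight_apply, Finsupp.sum]
    exact Finset.sum_congr rfl fun i _ => by rw [smul_eq_mul]
  have h4 := Ld.prod hb m.support (fun i => m i * w i) (fun i => u i ^ m i) (fun i => γ i ^ m i)
    fun i _ => (h i).pow hb (m i)
  rw [h3] at h4
  have h5 := (Ld.const (a := a) hb (algebraMap K F (coeff m f))).mul hb h4
  rw [zero_add, ← PowerSeries.algebraMap_apply] at h5
  exact h5

end

variable {K : Type} [Field K] {σ J : Type}

/-- the condition on the weights: the polynomials vanish only at points with weights prime to each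
other -/
def Free (g : J → MvPolynomial σ K) (w : σ → ℕ) : Prop :=
  ∀ u : Pt K σ, u ≠ 0 → (∀ i, w i = 0 → u i = 0) → (∀ j, aeval u (g j) = 0) →
    ∀ k : ℕ, (∀ i, u i ≠ 0 → k ∣ w i) → k = 1

theorem w_le {g : J → MvPolynomial σ K} {w : σ → ℕ} {d : ℕ} (hd : 0 < d)
    (hg : ∀ j, (g j).IsWeightedHomogeneous w d) (hfree : Free g w) (i : σ) : w i ≤ d := by
  classical
  by_contra hcon
  push Not at hcon
  have h1 : w i = 1 := by
    refine hfree (Pi.single i 1) ?_ ?_ ?_ (w i) ?_
    · intro h
      have := congrFun h i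
      simp at this
    · intro l hl
      have : l ≠ i := by rintro rfl; omega
      exact Pi.single_eq_of_ne this _
    · intro j
      rw [aeval_def, eval₂_eq]
      refine Finset.sum_eq_zero fun m hm => ?_
      have h3 : ∑ l ∈ m.support, m l * w l = d := by
        have := hg j (mem_support_iff.1 hm)
        rw [← this, Finsupp.weight_apply, Finsupp.sum]
        exact Finset.sum_congr rfl fun i _ => by rw [smul_eq_mul]
      have h4 : ∃ l ∈ m.support, m l * w l ≠ 0 := by
        by_contra h5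
        push Not at h5
        rw [Finset.sum_eq_zero h5] at h3
        omega
      obtain ⟨l, hl, hl'⟩ := h4
      have h5 : m l * w l ≤ d := by
        rw [← h3]
        exact Finset.single_le_sum (f := fun l => m l * w l) (fun _ _ => Nat.zero_le _) hl
      have h6 : l ≠ i := by
        rintro rfl
        have h7 : 0 < m l := Nat.pos_of_ne_zero fun h => hl' (by rw [h, zero_mul])
        nlinarith
      have h7 : (Pi.single i 1 : Pt K σ) l ^ m l = 0 := by
        rw [Pi.single_eq_of_ne h6]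
        exact zero_pow fun h => hl' (by rw [h, zero_mul])
      rw [Finset.prod_eq_zero hl h7, mul_zero]
    · intro l hl
      by_cases h : l = i
      · rw [h]
      · exact absurd (Pi.single_eq_of_ne h _) hl
  omega

/-- jets of order at least `d` are divisible by `t ^ w` -/
theorem div_tw [Fintype σ] {g : J → MvPolynomial σ K} {w : σ → ℕ} {d : ℕ} (hd : 0 < d)
    (hg : ∀ j, (g j).IsWeightedHomogeneous w d) (hfree : Free g w) {N : ℕ}
    (z : Pt K (σ × Fin (N + 1))) (h0 : ∀ i, z (i, 0) = 0)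
    (hz : ∀ j, ∀ k < d, PowerSeries.coeff k (aeval (ar z) (g j)) = 0) (i : σ) (k : Fin (N + 1))
    (hk : (k : ℕ) < w i) : z (i, k) = 0 := by
  classical
  by_contra hne
  set T : Finset (σ × Fin (N + 1)) := Finset.univ.filter fun q => w q.1 ≠ 0 ∧ z q ≠ 0 with hT
  have hTne : T.Nonempty := ⟨(i, k), by
    rw [hT, Finset.mem_filter]
    exact ⟨Finset.mem_univ _, by dsimp only; omega, hne⟩⟩
  obtain ⟨⟨i0, k0⟩, hq, hmin⟩ := Finset.exists_min_image T
    (fun q => ((q.2 : ℕ) : ℚ) / (w q.1 : ℚ)) hTne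
  rw [hT, Finset.mem_filter] at hq
  obtain ⟨-, hw0, hz0⟩ := hq
  dsimp only at hw0 hmin
  have hb : 0 < w i0 := Nat.pos_of_ne_zero hw0
  have hmin' : ∀ (l : σ) (m : Fin (N + 1)), w l ≠ 0 → z (l, m) ≠ 0 →
      (k0 : ℕ) * w l ≤ w i0 * m := by
    intro l m hl hm
    have h1 := hmin (l, m) (by rw [hT, Finset.mem_filter]; exact ⟨Finset.mem_univ _, hl, hm⟩)
    dsimp only at h1
    rw [div_le_div_iff₀ (by exact_mod_cast hb) (by exact_mod_cast Nat.pos_of_ne_zero hl)] at h1
    have h2 : (k0 : ℕ) * w l ≤ (m : ℕ) * w i0 := by exact_mod_cast h1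
    rw [mul_comm (w i0)]
    exact h2
  have hk0 : 0 < (k0 : ℕ) := by
    rcases Nat.eq_zero_or_pos (k0 : ℕ) with h | h
    · exfalso
      apply hz0
      rw [show k0 = 0 from Fin.ext h]
      exact h0 i0
    · exact h
  have hk0w : (k0 : ℕ) < w i0 := by
    have h1 := hmin' i k (by omega) hne
    by_contra h2
    push Not at h2
    have h3 : w i0 * (k : ℕ) < w i0 * w i := Nat.mul_lt_mul_of_pos_left hk hb
    have h4 : w i0 * w i ≤ k0 * w i := Nat.mul_le_mul_right _ h2
    omega
  -- the leading coefficients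
  have hex : ∀ l, ∃ c, Ld (k0 : ℕ) (w i0) (w l) c (ar z l) ∧ (w l = 0 → c = 0) := by
    intro l
    have hA : ∀ m, w i0 * m < (k0 : ℕ) * w l → PowerSeries.coeff m (ar z l) = 0 := by
      intro m hm
      rw [coeff_ar]
      split_ifs with h1
      · by_contra h2
        have h3 : w l ≠ 0 := by
          rintro h
          rw [h, mul_zero] at hm
          omega
        have := hmin' l ⟨m, h1⟩ h3 h2
        dsimp only at this
        omega
      · rfl
    by_cases h1 : ∃ m, w i0 * m = (k0 : ℕ) * w l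
    · obtain ⟨m, hm⟩ := h1
      refine ⟨PowerSeries.coeff m (ar z l), ⟨hA, fun m' hm' => ?_, fun h => absurd hm (h m)⟩,
        fun hl => ?_⟩
      · rw [Nat.eq_of_mul_eq_mul_left hb (hm'.trans hm.symm)]
      · rw [hl, mul_zero] at hm
        have h2 : m = 0 := by
          rcases Nat.mul_eq_zero.mp hm with h | h
          · omega
          · exact h
        rw [h2, coeff_ar, dif_pos (by omega)]
        exact h0 l
    · push Not at h1
      exact ⟨0, ⟨hA, fun m' hm' => absurd hm' (h1 m'), fun _ => rfl⟩, fun _ => rfl⟩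
  choose u hu hu0 using hex
  have hui0 : u i0 = z (i0, k0) := by
    rw [← (hu i0).2.1 k0 (mul_comm _ _), coeff_ar, dif_pos k0.2]
  have hgu : ∀ j, aeval u (g j) = 0 := by
    intro j
    have h1 := Ld.aeval hb w u (ar z) hu (hg j)
    by_cases h2 : ∃ m, w i0 * m = (k0 : ℕ) * d
    · obtain ⟨m, hm⟩ := h2
      rw [← h1.2.1 m hm]
      refine hz j m ?_
      by_contra h3
      push Not at h3
      have h4 : w i0 * d ≤ w i0 * m := Nat.mul_le_mul_left _ h3
      have h5 : (k0 : ℕ) * d < w i0 * d := Nat.mul_lt_mul_of_pos_right hk0w hd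
      omega
    · push Not at h2
      exact h1.2.2 h2
  have hgcd : 0 < Nat.gcd (k0 : ℕ) (w i0) := Nat.gcd_pos_of_pos_left _ hk0
  have h1 := hfree u (fun h => hz0 (by rw [← hui0, h]; rfl)) hu0 hgu
    (w i0 / Nat.gcd (k0 : ℕ) (w i0)) (by
      intro l hl
      have h2 : ∃ m, w i0 * m = (k0 : ℕ) * w l := by
        by_contra h3
        push Not at h3
        exact hl ((hu l).2.2 h3)
      obtain ⟨m, hm⟩ := h2
      have h3 : Nat.Coprime (w i0 / Nat.gcd (k0 : ℕ) (w i0)) ((k0 : ℕ) / Nat.gcd (k0 : ℕ) (w i0)) :=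
        (Nat.coprime_div_gcd_div_gcd hgcd).symm
      refine h3.dvd_of_dvd_mul_left (k := w i0 / Nat.gcd (k0 : ℕ) (w i0)) ?_
      refine ⟨m, ?_⟩
      obtain ⟨x, hx⟩ := Nat.gcd_dvd_left (k0 : ℕ) (w i0)
      obtain ⟨y, hy⟩ := Nat.gcd_dvd_right (k0 : ℕ) (w i0)
      set G := Nat.gcd (k0 : ℕ) (w i0)
      rw [hx, hy] at hm
      rw [hx, hy, Nat.mul_div_cancel_left _ hgcd, Nat.mul_div_cancel_left _ hgcd]
      rw [mul_assoc, mul_assoc] at hm
      exact (Nat.eq_of_mul_eq_mul_left hgcd hm).symm)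
  have h2 : w i0 = Nat.gcd (k0 : ℕ) (w i0) := by
    have h3 := Nat.div_mul_cancel (Nat.gcd_dvd_right (k0 : ℕ) (w i0))
    rw [h1, one_mul] at h3
    exact h3.symm
  have h3 : Nat.gcd (k0 : ℕ) (w i0) ≤ k0 := Nat.gcd_le_left _ hk0
  omega

/-- the free coordinates -/
abbrev TT (w : σ → ℕ) (N : ℕ) : Type := {p : σ × Fin (N + 1) // (p.2 : ℕ) + w p.1 ≤ N}

/-- extension by zero -/
noncomputable def ex (w : σ → ℕ) {N : ℕ} (s : Pt K (TT w N)) : Pt K (σ × Fin (N + 1)) :=
  fun p => if h : (p.2 : ℕ) + w p.1 ≤ N then s ⟨p, h⟩ else 0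

/-- division by `t ^ w` -/
noncomputable def shw (w : σ → ℕ) {N : ℕ} (z : Pt K (σ × Fin (N + 1))) : Pt K (TT w N) :=
  fun p => z (p.1.1, ⟨(p.1.2 : ℕ) + w p.1.1, Nat.lt_succ_of_le p.2⟩)

/-- multiplication by `t ^ w` -/
noncomputable def mtw (w : σ → ℕ) {N : ℕ} (s : Pt K (TT w N)) : Pt K (σ × Fin (N + 1)) :=
  fun p => if h : w p.1 ≤ (p.2 : ℕ) then s ⟨(p.1, ⟨(p.2 : ℕ) - w p.1, by omega⟩), by
    have := p.2.2
    change (p.2 : ℕ) - w p.1 + w p.1 ≤ N
    omega⟩ else 0

theorem shw_mtw (w : σ → ℕ) {N : ℕ} (s : Pt K (TT w N)) : shw w (mtw w s) = s := by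
  funext ⟨⟨i, k⟩, hp⟩
  unfold shw mtw
  dsimp only
  rw [dif_pos (Nat.le_add_left _ _)]
  congr 1
  refine Subtype.ext (Prod.ext rfl (Fin.ext ?_))
  change (k : ℕ) + w i - w i = k
  omega

theorem mtw_shw (w : σ → ℕ) {N : ℕ} (z : Pt K (σ × Fin (N + 1)))
    (hz : ∀ i (k : Fin (N + 1)), (k : ℕ) < w i → z (i, k) = 0) : mtw w (shw w z) = z := by
  funext ⟨i, k⟩
  unfold shw mtw
  dsimp only
  split_ifs with h
  · congr 2
    refine Fin.ext ?_
    change (k : ℕ) - w i + w i = k
    omega
  · exact (hz i k (by omega)).symm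

theorem pf_shw (w : σ → ℕ) {N : ℕ} (p : TT w N) :
    IsPF fun z : Pt K (σ × Fin (N + 1)) => shw w z p := by
  unfold shw
  exact IsPF.coord _

theorem pf_mtw (w : σ → ℕ) {N : ℕ} (p : σ × Fin (N + 1)) :
    IsPF fun s : Pt K (TT w N) => mtw w s p := by
  unfold mtw
  split_ifs
  · exact IsPF.coord _
  · exact IsPF.zero

theorem pf_ex (w : σ → ℕ) {N : ℕ} (p : σ × Fin (N + 1)) :
    IsPF fun s : Pt K (TT w N) => ex w s p := by
  unfold ex
  split_ifs
  · exact IsPF.coord _
  · exact IsPF.zero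

theorem ar_mtw (w : σ → ℕ) {N : ℕ} (s : Pt K (TT w N)) (i : σ) :
    ar (mtw w s) i = PowerSeries.X ^ w i * ar (ex w s) i := by
  ext k
  rw [PowerSeries.coeff_X_pow_mul', coeff_ar]
  by_cases h1 : k < N + 1
  · rw [dif_pos h1]
    by_cases h2 : w i ≤ k
    · rw [if_pos h2, coeff_ar, dif_pos (by omega : k - w i < N + 1)]
      unfold mtw ex
      rw [dif_pos h2, dif_pos (by change k - w i + w i ≤ N; omega)]
    · rw [if_neg h2]
      unfold mtw
      rw [dif_neg h2]
  · rw [dif_neg h1]
    split_ifs with h2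
    · rw [coeff_ar]
      split_ifs with h3
      · unfold ex
        rw [dif_neg]
        change ¬ (k - w i + w i ≤ N)
        omega
      · rfl
    · rfl

theorem mem_mtw {w : σ → ℕ} {N d : ℕ} (g : J → MvPolynomial σ K)
    (hg : ∀ j, (g j).IsWeightedHomogeneous w d) (s : Pt K (TT w N)) (m : ℕ) :
    mtw w s ∈ OS g {0} m N ↔ d ≤ m ∧
      ex w s ∈ OS g {z | ∀ i, w i = 0 → z i = 0} (m - d) N := by
  have hc : ∀ j k, PowerSeries.coeff k (aeval (ar (mtw w s)) (g j)) =
      if d ≤ k then PowerSeries.coeff (k - d) (aeval (ar (ex w s)) (g j)) else 0 := by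
    intro j k
    have h : ar (mtw w s) = fun i => PowerSeries.X ^ w i * ar (ex w s) i :=
      funext fun i => ar_mtw w s i
    rw [h, Scale2.aeval_whom w _ _ (hg j), PowerSeries.coeff_X_pow_mul']
  have h0 : (fun i => mtw w s (i, 0)) ∈ ({0} : Set (Pt K σ)) ↔
      (fun i => ex w s (i, 0)) ∈ {z : Pt K σ | ∀ i, w i = 0 → z i = 0} := by
    rw [Set.mem_singleton_iff, Set.mem_ofPred_eq, funext_iff]
    refine forall_congr' fun i => ?_
    by_cases h : w i = 0
    · have h1 : mtw w s (i, 0) = ex w s (i, 0) := by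
        unfold mtw ex
        rw [dif_pos (by dsimp only; omega), dif_pos (by
          change ((0 : Fin (N + 1)) : ℕ) + w i ≤ N
          rw [h]
          simp)]
        congr 1
        refine Subtype.ext (Prod.ext rfl (Fin.ext ?_))
        change ((0 : Fin (N + 1)) : ℕ) - w i = ((0 : Fin (N + 1)) : ℕ)
        omega
      change mtw w s (i, 0) = 0 ↔ (w i = 0 → ex w s (i, 0) = 0)
      rw [h1]
      simp [h]
    · have h1 : mtw w s (i, 0) = 0 := by
        unfold mtw
        rw [dif_neg]
        change ¬ (w i ≤ ((0 : Fin (N + 1)) : ℕ))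
        rw [Fin.val_zero]
        omega
      change mtw w s (i, 0) = 0 ↔ (w i = 0 → ex w s (i, 0) = 0)
      rw [h1]
      simp [h]
  unfold OS
  simp only [Set.mem_ofPred_eq, hc] at h0 ⊢
  constructor
  · rintro ⟨hz, h1, j, h2⟩
    have h3 : d ≤ m := by
      by_contra h
      rw [if_neg h] at h2
      exact h2 rfl
    refine ⟨h3, h0.1 hz, fun j k hk => ?_, j, ?_⟩
    · have := h1 j (k + d) (by omega)
      rwa [if_pos (by omega), Nat.add_sub_cancel] at this
    · rwa [if_pos h3] at h2
  · rintro ⟨h3, hz, h1, j, h2⟩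
    refine ⟨h0.2 hz, fun j k hk => ?_, j, ?_⟩
    · split_ifs with h
      · exact h1 j _ (by omega)
      · rfl
    · rwa [if_pos h3]

variable [Fintype σ]

theorem card_w {w : σ → ℕ} {N : ℕ} (hw : ∀ i, w i ≤ N) :
    Fintype.card {p : σ × Fin (N + 1) // ¬ ((p.2 : ℕ) + w p.1 ≤ N)} = ∑ i, w i := by
  classical
  rw [Fintype.card_subtype, Finset.card_filter, Fintype.sum_prod_type]
  refine Finset.sum_congr rfl fun i _ => ?_
  dsimp only
  rw [← Finset.card_filter]
  have hemb : Function.Injective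
      (fun k : Fin (w i) => (⟨N - (k : ℕ), by omega⟩ : Fin (N + 1))) := by
    intro a b h
    have h2 : N - (a : ℕ) = N - (b : ℕ) := congrArg Fin.val h
    have h3 := hw i
    have h4 := a.2
    have h5 := b.2
    exact Fin.ext (by omega)
  have h1 : (Finset.univ.filter fun k : Fin (N + 1) => ¬ ((k : ℕ) + w i ≤ N)) =
      (Finset.univ : Finset (Fin (w i))).image
        (fun k : Fin (w i) => (⟨N - (k : ℕ), by omega⟩ : Fin (N + 1))) := by
    ext k
    rw [Finset.mem_filter, Finset.mem_image]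
    constructor
    · rintro ⟨-, h⟩
      refine ⟨⟨N - (k : ℕ), by omega⟩, Finset.mem_univ _, ?_⟩
      refine Fin.ext ?_
      change N - (N - (k : ℕ)) = k
      omega
    · rintro ⟨a, -, ha⟩
      refine ⟨Finset.mem_univ _, ?_⟩
      have h2 : N - (a : ℕ) = (k : ℕ) := congrArg Fin.val ha
      have := hw i
      omega
  rw [h1, Finset.card_image_of_injective _ hemb, Finset.card_univ, Fintype.card_fin]

theorem chi_w [Finite J] {w : σ → ℕ} {d : ℕ} (hd : 0 < d)
    (g : J → MvPolynomial σ K) (hg : ∀ j, (g j).IsWeightedHomogeneous w d) (hfree : Free g w)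
    {R : Type} [CommRing R] (M : Meas K R) (N : ℕ) (hN : d ≤ N) :
    M.χ _ (OS g {z | ∀ i, w i = 0 → z i = 0} (N - d) N) =
      M.χ _ (OS g {0} N N) * M.L ^ (∑ i, w i) := by
  classical
  have hw : ∀ i, w i ≤ d := w_le hd hg hfree
  have hS : Constr {s : Pt K (TT w N) | ex w s ∈ OS g {z | ∀ i, w i = 0 → z i = 0} (N - d) N} :=
    (constr_OS g (Rec2.constr_V w) (N - d) N).preimage (fun s => ex w s) (pf_ex w)
  have h1 := chi_split M (Equiv.sumCompl fun p : σ × Fin (N + 1) => (p.2 : ℕ) + w p.1 ≤ N)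
    (OS g {z | ∀ i, w i = 0 → z i = 0} (N - d) N)
    {s : Pt K (TT w N) | ex w s ∈ OS g {z | ∀ i, w i = 0 → z i = 0} (N - d) N} hS ?_
  · rw [h1, card_w fun i => (hw i).trans hN]
    congr 1
    have hdiv : ∀ z : Pt K (σ × Fin (N + 1)), z ∈ OS g {0} N N → mtw w (shw w z) = z := by
      intro z hz
      refine mtw_shw w z ?_
      exact div_tw hd hg hfree z (fun i => congrFun hz.1 i) fun j k hk =>
        hz.2.1 j k (by omega)
    refine (M.iso _ _ (constr_OS g ?_ N N) hS (fun z => shw w z) (fun s => mtw w s)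
      (regularOn_poly (pf_shw w) _) (regularOn_poly (pf_mtw w) _) ?_ ?_ ?_ ?_).symm
    · exact constr_z
    · intro z hz
      have h2 := hdiv z hz
      rw [← h2, mem_mtw g hg] at hz
      exact hz.2
    · intro s hs
      rw [mem_mtw g hg]
      exact ⟨hN, hs⟩
    · exact hdiv
    · intro s _
      exact shw_mtw w s
  · intro z
    have he : ∀ i, ∀ k ≤ N - d, PowerSeries.coeff k (ar z i) = PowerSeries.coeff k
        (ar (ex w fun t => z ((Equiv.sumCompl fun p : σ × Fin (N + 1) =>
          (p.2 : ℕ) + w p.1 ≤ N) (Sum.inl t))) i) := by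
      intro i k hk
      rw [coeff_ar, coeff_ar, dif_pos (by omega), dif_pos (by omega)]
      unfold ex
      rw [dif_pos]
      · rfl
      · change k + w i ≤ N
        have := hw i
        omega
    have h1 : ∀ j, ∀ k ≤ N - d, PowerSeries.coeff k (aeval (ar z) (g j)) = PowerSeries.coeff k
        (aeval (ar (ex w fun t => z ((Equiv.sumCompl fun p : σ × Fin (N + 1) =>
          (p.2 : ℕ) + w p.1 ≤ N) (Sum.inl t)))) (g j)) := fun j =>
      coeff_congr (N - d) _ _ he (g j)
    rw [Set.mem_ofPred_eq]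
    unfold OS
    simp only [Set.mem_ofPred_eq]
    refine and_congr ?_ (and_congr ?_ ?_)
    · refine forall_congr' fun i => forall_congr' fun hi => ?_
      have h2 := he i 0 (Nat.zero_le _)
      rw [coeff_ar, coeff_ar, dif_pos (by omega), dif_pos (by omega)] at h2
      have h3 : z (i, 0) = ex w (fun t => z ((Equiv.sumCompl fun p : σ × Fin (N + 1) =>
          (p.2 : ℕ) + w p.1 ≤ N) (Sum.inl t))) (i, 0) := h2
      rw [← h3]
    · exact forall_congr' fun j => forall₂_congr fun k hk => by rw [h1 j k hk.le]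
    · exact exists_congr fun j => by rw [h1 j _ le_rfl]

end Rec3

open Rec3 in
/-- **REC3.** -/
theorem t_REC3 : S_REC3 := by
  intro K _ σ J _ _ g w d hd hg hfree R _ M v hv
  classical
  have hJ : ∀ V N, JetF g V N = OS g V N N := fun V N => rfl
  refine ⟨fun k => PowerSeries.coeff k (ZF M v g {0}), ?_⟩
  ext N
  rw [map_add, map_sum, mul_assoc, PowerSeries.coeff_C_mul, PowerSeries.coeff_X_pow_mul']
  have hsum : ∑ k ∈ Finset.range d, PowerSeries.coeff N
      (PowerSeries.C (PowerSeries.coeff k (ZF M v g {0})) * PowerSeries.X ^ k) =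
      if N < d then PowerSeries.coeff N (ZF M v g {0}) else 0 := by
    simp only [PowerSeries.coeff_C_mul, PowerSeries.coeff_X_pow, mul_ite, mul_one, mul_zero]
    rw [Finset.sum_ite_eq]
    simp only [Finset.mem_range]
  rw [hsum]
  by_cases h : d ≤ N
  · rw [if_neg (by omega), if_pos h, zero_add]
    unfold ZF
    rw [PowerSeries.coeff_mk, hJ, PowerSeries.coeff_mk, hJ]
    have h1 := chi_w hd g hg hfree M N h
    obtain ⟨l, hl⟩ : ∃ l, N = (N - d) + l := ⟨d, by omega⟩
    have h2 : ∀ N', N' = (N - d) + l →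
        M.χ (σ × Fin (N' + 1)) (OS g {z | ∀ i, w i = 0 → z i = 0} (N - d) N') =
        M.χ _ (OS g {z | ∀ i, w i = 0 → z i = 0} (N - d) (N - d)) *
          M.L ^ (Fintype.card σ * l) := by
      rintro N' rfl
      exact chi_level g (Rec2.constr_V w) M _ _
    rw [h2 N hl] at h1
    have h3 : M.L ^ (∑ i, w i) * v ^ (∑ i, w i) = 1 := by rw [← mul_pow, hv, one_pow]
    have h4 : M.L ^ (Fintype.card σ * l) * v ^ (Fintype.card σ * l) = 1 := by
      rw [← mul_pow, hv, one_pow]
    have h5 : v ^ (Fintype.card σ * N) = v ^ (Fintype.card σ * (N - d)) *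
        v ^ (Fintype.card σ * l) := by
      rw [← pow_add, ← mul_add, ← hl]
    calc M.χ _ (OS g {0} N N) * v ^ (Fintype.card σ * N)
        = M.χ _ (OS g {0} N N) * (M.L ^ (∑ i, w i) * v ^ (∑ i, w i)) *
          v ^ (Fintype.card σ * N) := by rw [h3, mul_one]
      _ = (M.χ _ (OS g {0} N N) * M.L ^ (∑ i, w i)) * v ^ (∑ i, w i) *
          v ^ (Fintype.card σ * N) := by ring
      _ = v ^ (∑ i, w i) * (M.χ _ (OS g {z | ∀ i, w i = 0 → z i = 0} (N - d) (N - d)) *
          v ^ (Fintype.card σ * (N - d))) *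
          (M.L ^ (Fintype.card σ * l) * v ^ (Fintype.card σ * l)) := by
          rw [← h1, h5]
          ring
      _ = _ := by rw [h4, mul_one]
  · rw [if_pos (by omega), if_neg h, mul_zero, add_zero]

end Pool.Agent.D0H35.CX
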